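import Mathlib

/-!
# Affine permutations of finite nilpotent groups have a cycle whose length is the order
-/

set_option autoImplicit false

namespace Pool.Agent.Results.MP_27f3b7_al.LargestCycle

/-- `A` is an affine permutation with linear part `α` -/
def HasLin {G : Type*} [Group G] (A : Equiv.Perm G) (α : MulAut G) : Prop :=
  ∀ x y, A (x * y) = A x * α y

section basic

variable {G : Type*} [Group G] {A B : Equiv.Perm G} {α β : MulAut G}

lemma HasLin.mul (hA : HasLin A α) (hB : HasLin B β) : HasLin (A * B) (α * β) := by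
  intro x y
  rw [Equiv.Perm.mul_apply, hB, hA]; rfl

lemma HasLin.one : HasLin (1 : Equiv.Perm G) (1 : MulAut G) := fun _ _ => rfl

lemma HasLin.pow (hA : HasLin A α) (k : ℕ) : HasLin (A ^ k) (α ^ k) := by
  induction k with
  | zero => exact HasLin.one
  | succ k ih => rw [pow_succ, pow_succ]; exact ih.mul hA

lemma HasLin.unique (hA : HasLin A α) (hA' : HasLin A β) : α = β := by
  apply MulEquiv.ext
  intro y
  have h1 := hA 1 y
  rw [hA' 1 y] at h1
  exact (mul_left_cancel h1).symm

lemma HasLin.comm (hA : HasLin A α) (hB : HasLin B β) (h : A * B = B * A) : α * β = β * α :=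
  (hA.mul hB).unique (h ▸ hB.mul hA)

end basic

section abelian

variable {V : Type*} [CommGroup V] [Finite V]

/-- the norm -/
def nrm (γ : MulAut V) (r : ℕ) (u : V) : V := ∏ i ∈ Finset.range r, (γ ^ i) u

omit [Finite V] in
lemma nrm_fixed (γ : MulAut V) (r : ℕ) (z : V) (hz : γ z = z) : nrm γ r z = z ^ r := by
  have : ∀ i : ℕ, (γ ^ i) z = z := by
    intro i
    induction i with
    | zero => rfl
    | succ i ih => rw [pow_succ, MulAut.mul_apply, hz, ih]
  rw [nrm, Finset.prod_congr rfl (fun i _ => this i), Finset.prod_const, Finset.card_range]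

omit [Finite V] in
lemma nrm_div (γ : MulAut V) (r : ℕ) (w : V) (hw : (γ ^ r) w = w) :
    nrm γ r (γ w / w) = 1 := by
  have : ∀ i : ℕ, (γ ^ i) (γ w / w) = (γ ^ (i + 1)) w / (γ ^ i) w := by
    intro i
    rw [map_div, pow_succ, MulAut.mul_apply]
  rw [nrm, Finset.prod_congr rfl (fun i _ => this i),
    Finset.prod_range_div (fun i => (γ ^ i) w) r, hw]
  simp

omit [Finite V] in
lemma nrm_comm (γ δ : MulAut V) (h : γ * δ = δ * γ) (r : ℕ) (u : V) :
    nrm γ r (δ u) = δ (nrm γ r u) := by
  rw [nrm, nrm, map_prod]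
  apply Finset.prod_congr rfl
  intro i _
  have : γ ^ i * δ = δ * γ ^ i := ((Commute.pow_left (show Commute γ δ from h) i)).eq
  rw [← MulAut.mul_apply, ← MulAut.mul_apply, this]

omit [Finite V] in
lemma nrm_mul (γ : MulAut V) (r : ℕ) (u w : V) : nrm γ r (u * w) = nrm γ r u * nrm γ r w := by
  rw [nrm, nrm, nrm, ← Finset.prod_mul_distrib]
  apply Finset.prod_congr rfl
  intro i _
  rw [map_mul]

omit [Finite V] in
lemma nrm_inv (γ : MulAut V) (r : ℕ) (u : V) : nrm γ r u⁻¹ = (nrm γ r u)⁻¹ := by
  rw [nrm, nrm, ← Finset.prod_inv_distrib]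
  apply Finset.prod_congr rfl
  intro i _
  rw [map_inv]

omit [Finite V] in
lemma pow_eq_one {r : ℕ} (hr : r.Coprime (Nat.card V)) {z : V} (hz : z ^ r = 1) : z = 1 := by
  have h1 : orderOf z ∣ r := orderOf_dvd_of_pow_eq_one hz
  have h2 : orderOf z ∣ Nat.card V := orderOf_dvd_natCard z
  have h3 : orderOf z ∣ 1 := by rw [← hr]; exact Nat.dvd_gcd h1 h2
  exact orderOf_eq_one_iff.mp (Nat.dvd_one.mp h3)

omit [Finite V] in
/-- the correction vector -/
lemma exists_u {c : Equiv.Perm V} {γ : MulAut V} (hc : HasLin c γ) {r : ℕ} (hr : c ^ r = 1)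
    (hne : c ≠ 1) {v : V} (hv : c v = v) : ∃ u : V, u ≠ 1 ∧ nrm γ r u = 1 := by
  by_contra hcon
  push Not at hcon
  apply hne
  have hγr : γ ^ r = 1 := (hc.pow r).unique (hr ▸ HasLin.one)
  have hγ : ∀ w, γ w = w := by
    intro w
    by_contra hw
    refine hcon (γ w / w) ?_ (nrm_div γ r w (by rw [hγr]; rfl))
    intro h
    exact hw (div_eq_one.mp h)
  apply Equiv.ext
  intro w
  have h1 := hc v (v⁻¹ * w)
  rw [mul_inv_cancel_left, hv, hγ, mul_inv_cancel_left] at h1
  exact h1

omit [Finite V] in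
lemma avoid_self {c : Equiv.Perm V} {γ : MulAut V} (hc : HasLin c γ) {r : ℕ}
    (hcop : r.Coprime (Nat.card V)) {v u : V} (hv : c v = v) (hu : u ≠ 1)
    (hN : nrm γ r u = 1) : c (v * u) ≠ v * u := by
  intro h
  rw [hc, hv] at h
  have h1 : γ u = u := mul_left_cancel h
  rw [nrm_fixed γ r u h1] at hN
  exact hu (pow_eq_one hcop hN)

omit [Finite V] in
lemma avoid_other {c d : Equiv.Perm V} {γ δ : MulAut V} (hc : HasLin c γ) (hd : HasLin d δ)
    (hcd : c * d = d * c) {r : ℕ} (hcop : r.Coprime (Nat.card V)) {v u : V} (hv : c v = v)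
    (hN : nrm γ r u = 1) (hdv : d v ≠ v) : d (v * u) ≠ v * u := by
  intro h
  rw [hd] at h
  have hγδ : γ * δ = δ * γ := hc.comm hd hcd
  -- the displacement of `v`
  have hz : v⁻¹ * d v = u * (δ u)⁻¹ := by
    have : d v = v * u * (δ u)⁻¹ := by rw [← h]; simp
    rw [this]; group
  have hcz : γ (v⁻¹ * d v) = v⁻¹ * d v := by
    have h1 : c (v * (v⁻¹ * d v)) = c v * γ (v⁻¹ * d v) := hc _ _
    rw [mul_inv_cancel_left, hv] at h1
    have h2 : c (d v) = d v := by
      have : c (d v) = (c * d) v := rfl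
      rw [this, hcd, Equiv.Perm.mul_apply, hv]
    rw [h2] at h1
    have h3 : γ (v⁻¹ * d v) = v⁻¹ * (v * γ (v⁻¹ * d v)) := by group
    rw [h3, ← h1]
  have hNz : nrm γ r (v⁻¹ * d v) = 1 := by
    rw [hz, nrm_mul, nrm_inv, nrm_comm γ δ hγδ, hN]; simp
  rw [nrm_fixed γ r _ hcz] at hNz
  have := pow_eq_one hcop hNz
  apply hdv
  have h4 : d v = v * (v⁻¹ * d v) := by group
  rw [h4, this, mul_one]

omit [Finite V] in
lemma avoid_W {c : Equiv.Perm V} {γ : MulAut V} (hc : HasLin c γ) {r : ℕ}
    (hcop : r.Coprime (Nat.card V)) {v u : V} (hv : c v = v) (hN : nrm γ r u = 1)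
    {W : Set V} {C : Subgroup V} (hW : ∀ w ∈ W, ∀ x, x ∈ W ↔ w⁻¹ * x ∈ C)
    (hcW : ∀ w ∈ W, c w ∈ W) (hvW : v ∉ W) : v * u ∉ W := by
  intro h
  -- the orbit of `v * u`
  have h1 : ∀ i : ℕ, v * (γ ^ i) u ∈ W := by
    intro i
    induction i with
    | zero => exact h
    | succ i ih =>
      have := hcW _ ih
      rw [hc, hv] at this
      rw [pow_succ', MulAut.mul_apply]
      exact this
  have h2 : ∀ i : ℕ, u⁻¹ * (γ ^ i) u ∈ C := by
    intro i
    have := (hW _ h _).mp (h1 i)
    have e : (v * u)⁻¹ * (v * (γ ^ i) u) = u⁻¹ * (γ ^ i) u := by group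
    rwa [e] at this
  have h3 : ∏ i ∈ Finset.range r, (u⁻¹ * (γ ^ i) u) ∈ C := Subgroup.prod_mem _ (fun i _ => h2 i)
  rw [Finset.prod_mul_distrib, Finset.prod_const, Finset.card_range] at h3
  have h4 : ∏ i ∈ Finset.range r, (γ ^ i) u = 1 := hN
  rw [h4, mul_one, inv_pow, inv_mem_iff] at h3
  have h5 : u ∈ C := by
    obtain ⟨m, hm⟩ : ∃ m : ℕ, (u ^ r) ^ m = u := by
      have hcop' : (orderOf u).Coprime r :=
        (Nat.Coprime.coprime_dvd_right (orderOf_dvd_natCard u) hcop).symm
      exact exists_pow_eq_self_of_coprime hcop'.symm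
    rw [← hm]
    exact pow_mem h3 m
  apply hvW
  rw [hW _ h]
  have e : (v * u)⁻¹ * v = u⁻¹ := by rw [mul_inv_rev, mul_assoc, inv_mul_cancel, mul_one]
  rw [e]
  exact inv_mem h5

omit [Finite V] in
/-- A point outside of `W` that is moved by all the given powers of `A`. -/
lemma exists_v {A : Equiv.Perm V} {α : MulAut V} (hA : HasLin A α) {W : Set V} {C : Subgroup V}
    (hW : ∀ w ∈ W, ∀ x, x ∈ W ↔ w⁻¹ * x ∈ C) (hAW : ∀ w ∈ W, A w ∈ W) (hne : ∃ v, v ∉ W)
    (m : ℕ → ℕ) (S : Finset ℕ)
    (hS : ∀ q ∈ S, (A ^ m q) ^ q = 1 ∧ A ^ m q ≠ 1 ∧ q.Coprime (Nat.card V)) :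
    ∃ v, v ∉ W ∧ ∀ q ∈ S, (A ^ m q) v ≠ v := by
  have hpowW : ∀ k : ℕ, ∀ w ∈ W, (A ^ k) w ∈ W := by
    intro k
    induction k with
    | zero => intro w hw; exact hw
    | succ k ih =>
      intro w hw
      rw [pow_succ', Equiv.Perm.mul_apply]
      exact hAW _ (ih w hw)
  induction S using Finset.induction_on with
  | empty =>
    obtain ⟨v, hv⟩ := hne
    exact ⟨v, hv, fun q hq => absurd hq (Finset.notMem_empty q)⟩
  | @insert r S hr ih =>
    obtain ⟨v, hvW, hv⟩ := ih (fun q hq => hS q (Finset.mem_insert_of_mem hq))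
    obtain ⟨h1, h2, h3⟩ := hS r (Finset.mem_insert_self r S)
    by_cases hrv : (A ^ m r) v = v
    · obtain ⟨u, hu, hN⟩ := exists_u (hA.pow (m r)) h1 h2 hrv
      refine ⟨v * u, avoid_W (hA.pow _) h3 hrv hN hW (hpowW _) hvW, ?_⟩
      intro q hq
      rcases Finset.mem_insert.mp hq with rfl | hq
      · exact avoid_self (hA.pow _) h3 hrv hu hN
      · refine avoid_other (hA.pow _) (hA.pow _) ?_ h3 hrv hN (hv q hq)
        rw [← pow_add, ← pow_add, add_comm]
    · refine ⟨v, hvW, ?_⟩
      intro q hq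
      rcases Finset.mem_insert.mp hq with rfl | hq
      · exact hrv
      · exact hv q hq

end abelian

section nilpotent

/-- In a finite nilpotent group, a subgroup that covers the abelianization is everything. -/
lemma eq_top_of_sup_commutator {G : Type*} [Group G] [Finite G] [Group.IsNilpotent G]
    (C : Subgroup G) (h : C ⊔ commutator G = ⊤) : C = ⊤ := by
  by_contra hC
  obtain ⟨M, hM, hCM⟩ := (eq_top_or_exists_le_coatom C).resolve_left hC
  have hMn : M.Normal :=
    Subgroup.NormalizerCondition.normal_of_coatom M Group.normalizerCondition_of_isNilpotent hM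
  -- the quotient is simple and nilpotent, so abelian
  have hle : commutator G ≤ M := by
    have hnt : Nontrivial (G ⧸ M) := by
      rw [QuotientGroup.nontrivial_iff]
      exact hM.1
    have hlt : commutator (G ⧸ M) < ⊤ := Group.IsSolvable.commutator_lt_top_of_nontrivial (G ⧸ M)
    have hsurj := QuotientGroup.mk'_surjective M
    have h1 : M ≤ (commutator (G ⧸ M)).comap (QuotientGroup.mk' M) := by
      intro x hx
      rw [Subgroup.mem_comap, QuotientGroup.mk'_apply, (QuotientGroup.eq_one_iff x).mpr hx]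
      exact one_mem _
    have h2 : (commutator (G ⧸ M)).comap (QuotientGroup.mk' M) ≠ ⊤ := by
      intro h3
      apply hlt.ne
      apply Subgroup.comap_injective hsurj
      rw [h3, Subgroup.comap_top]
    have h3 : (commutator (G ⧸ M)).comap (QuotientGroup.mk' M) = M := by
      by_contra hne
      exact h2 (hM.2 _ (lt_of_le_of_ne h1 (Ne.symm hne)))
    have h4 : commutator G ≤ (commutator (G ⧸ M)).comap (QuotientGroup.mk' M) := by
      rw [← Subgroup.map_le_iff_le_comap, commutator_def, commutator_def, Subgroup.map_commutator]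
      exact Subgroup.commutator_mono le_top le_top
    rw [h3] at h4
    exact h4
  apply hM.1
  rw [eq_top_iff, ← h]
  exact sup_le hCM hle

/-- An affine permutation of a finite nilpotent group whose fixed points meet every coset of the
derived subgroup is the identity. -/
lemma eq_one_of_fix {G : Type*} [Group G] [Finite G] [Group.IsNilpotent G] {B : Equiv.Perm G}
    {β : MulAut G} (hB : HasLin B β)
    (h : ∀ v : Abelianization G, ∃ x : G, Abelianization.of x = v ∧ B x = x) : B = 1 := by
  obtain ⟨x₀, _, hx₀⟩ := h 1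
  let C : Subgroup G := (MonoidHom.eqLocus (β : MulAut G).toMonoidHom (MonoidHom.id G))
  have hC : C ⊔ commutator G = ⊤ := by
    rw [eq_top_iff]
    intro g _
    obtain ⟨x, hx, hBx⟩ := h (Abelianization.of (x₀ * g))
    have hy : x₀⁻¹ * x ∈ C := by
      show β (x₀⁻¹ * x) = x₀⁻¹ * x
      have h1 := hB x₀ (x₀⁻¹ * x)
      rw [mul_inv_cancel_left, hBx, hx₀] at h1
      rw [← mul_right_inj x₀, ← h1]; group
    have hg : (x₀⁻¹ * x)⁻¹ * g ∈ commutator G := by
      rw [← Abelianization.ker_of, MonoidHom.mem_ker, map_mul, map_inv, map_mul, map_inv, hx,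
        map_mul]
      simp
    have : g = (x₀⁻¹ * x) * ((x₀⁻¹ * x)⁻¹ * g) := by group
    rw [this]
    exact mul_mem (Subgroup.mem_sup_left hy) (Subgroup.mem_sup_right hg)
  have hCt := eq_top_of_sup_commutator C hC
  have hβ : ∀ y, β y = y := by
    intro y
    have : y ∈ C := by rw [hCt]; trivial
    exact this
  apply Equiv.ext
  intro y
  have h1 := hB x₀ (x₀⁻¹ * y)
  rw [hβ, mul_inv_cancel_left, hx₀, mul_inv_cancel_left] at h1
  exact h1

/-- the property: some point has a regular orbit -/
def Good {X : Type*} (A : Equiv.Perm X) : Prop := ∃ x, ∀ k : ℕ, (A ^ k) x = x → A ^ k = 1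

/-- the induced map on the abelianization -/
noncomputable def ab {G : Type*} [Group G] (A : Equiv.Perm G) (α : MulAut G) :
    Equiv.Perm (Abelianization G) :=
  (MulEquiv.abelianizationCongr α).toEquiv.trans (Equiv.mulLeft (Abelianization.of (A 1)))

lemma ab_hasLin {G : Type*} [Group G] (A : Equiv.Perm G) (α : MulAut G) :
    HasLin (ab A α) (MulEquiv.abelianizationCongr α) := by
  intro x y
  show Abelianization.of (A 1) * (MulEquiv.abelianizationCongr α) (x * y) = Abelianization.of (A 1)
    * (MulEquiv.abelianizationCongr α) x * (MulEquiv.abelianizationCongr α) y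
  rw [map_mul, mul_assoc]

lemma ab_of {G : Type*} [Group G] {A : Equiv.Perm G} {α : MulAut G} (hA : HasLin A α) (x : G) :
    ab A α (Abelianization.of x) = Abelianization.of (A x) := by
  show Abelianization.of (A 1) * (MulEquiv.abelianizationCongr α) (Abelianization.of x) = _
  rw [abelianizationCongr_of, ← map_mul, ← hA, one_mul]

lemma ab_pow {G : Type*} [Group G] {A : Equiv.Perm G} {α : MulAut G} (hA : HasLin A α) (k : ℕ)
    (x : G) : (ab A α ^ k) (Abelianization.of x) = Abelianization.of ((A ^ k) x) := by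
  induction k with
  | zero => rfl
  | succ k ih => rw [pow_succ', pow_succ', Equiv.Perm.mul_apply, ih, ab_of hA]; rfl

/-- a permutation of prime order has a fixed point on an invariant set of coprime size -/
lemma exists_fix {X : Type*} [Finite X] (B : Equiv.Perm X) {q : ℕ} (hq : q.Prime)
    (hB : B ^ q = 1) (F : Set X) (hF : ∀ x, x ∈ F ↔ B x ∈ F) (hcard : ¬ q ∣ Nat.card F) :
    ∃ x ∈ F, B x = x := by
  classical
  have := Fintype.ofFinite X
  have : Fact q.Prime := ⟨hq⟩
  let f : Equiv.Perm F := B.subtypePerm (fun x => (hF x).symm)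
  have hf : f ^ q ^ 1 = 1 := by
    rw [pow_one]
    apply Equiv.ext
    intro x
    apply Subtype.ext
    show ((f ^ q) x : X) = x
    rw [Equiv.Perm.subtypePerm_pow, Equiv.Perm.subtypePerm_apply]
    show (B ^ q) x = x
    rw [hB]; rfl
  rw [Nat.card_eq_fintype_card] at hcard
  obtain ⟨x, hx⟩ := Equiv.Perm.exists_fixed_point_of_prime (σ := f) (p := q) (n := 1) hcard hf
  exact ⟨x.1, x.2, congrArg Subtype.val hx⟩

/-- the case of `p`-groups -/
lemma good_of_isPGroup {p : ℕ} [hp : Fact p.Prime] {P : Type*} [Group P] [Finite P]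
    (hP : IsPGroup p P) {A : Equiv.Perm P} {α : MulAut P} (hA : HasLin A α) : Good A := by
  have hnil : Group.IsNilpotent P := hP.isNilpotent
  set n := orderOf A with hn
  have hn0 : 0 < n := orderOf_pos A
  have hAn : A ^ n = 1 := pow_orderOf_eq_one A
  have hne1 : ∀ q, q.Prime → q ∣ n → A ^ (n / q) ≠ 1 := by
    intro q hq hqn h
    have h1 : n ∣ n / q := orderOf_dvd_of_pow_eq_one h
    have h2 : n / q < n := Nat.div_lt_self hn0 hq.one_lt
    have h3 : 0 < n / q := Nat.div_pos (Nat.le_of_dvd hn0 hqn) hq.pos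
    exact absurd (Nat.le_of_dvd h3 h1) (by omega)
  -- the abelianization
  have hV : IsPGroup p (Abelianization P) := hP.of_surjective Abelianization.of
    (QuotientGroup.mk'_surjective _)
  have hcopV : ∀ q, q.Prime → q ≠ p → q.Coprime (Nat.card (Abelianization P)) := by
    intro q hq hqp
    obtain ⟨k, hk⟩ := IsPGroup.iff_card.mp hV
    rw [hk]
    exact Nat.Coprime.pow_right k ((Nat.coprime_primes hq hp.out).mpr hqp)
  have hof : Function.Surjective (Abelianization.of : P →* Abelianization P) :=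
    QuotientGroup.mk'_surjective _
  -- the bad set
  let C : Subgroup (Abelianization P) := (MonoidHom.eqLocus (α ^ (n / p) : MulAut P).toMonoidHom
    (MonoidHom.id P)).map Abelianization.of
  let W : Set (Abelianization P) :=
    {v | p ∣ n ∧ ∃ x : P, Abelianization.of x = v ∧ (A ^ (n / p)) x = x}
  have hlin := hA.pow (n / p)
  have hW : ∀ w ∈ W, ∀ v, v ∈ W ↔ w⁻¹ * v ∈ C := by
    rintro w ⟨hpn, x₀, rfl, hx₀⟩ v
    constructor
    · rintro ⟨_, x, rfl, hx⟩
      refine ⟨x₀⁻¹ * x, ?_, by rw [map_mul, map_inv]⟩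
      show (α ^ (n / p)) (x₀⁻¹ * x) = x₀⁻¹ * x
      have h1 := hlin x₀ (x₀⁻¹ * x)
      rw [mul_inv_cancel_left, hx, hx₀] at h1
      rw [← mul_right_inj x₀, ← h1]; group
    · rintro ⟨y, hy, hyv⟩
      have hy' : (α ^ (n / p)) y = y := hy
      refine ⟨hpn, x₀ * y, ?_, ?_⟩
      · rw [map_mul, hyv, mul_inv_cancel_left]
      · rw [hlin, hx₀, hy']
  have hAW : ∀ w ∈ W, ab A α w ∈ W := by
    rintro w ⟨hpn, x, rfl, hx⟩
    refine ⟨hpn, A x, (ab_of hA x).symm, ?_⟩
    rw [← Equiv.Perm.mul_apply, ← pow_succ, pow_succ', Equiv.Perm.mul_apply, hx]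
  have hneW : ∃ v, v ∉ W := by
    by_contra hcon
    push Not at hcon
    have hpn : p ∣ n := (hcon 1).1
    exact hne1 p hp.out hpn (eq_one_of_fix hlin (fun v => (hcon v).2))
  obtain ⟨v, hvW, hv⟩ := exists_v (ab_hasLin A α) hW hAW hneW (fun q => n / q)
    (n.primeFactors.erase p) (by
      intro q hq
      rw [Finset.mem_erase, Nat.mem_primeFactors] at hq
      obtain ⟨hqp, hq, hqn, _⟩ := hq
      refine ⟨?_, ?_, hcopV q hq hqp⟩
      · rw [← pow_mul, Nat.div_mul_cancel hqn]
        apply Equiv.ext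
        intro v
        obtain ⟨x, rfl⟩ := hof v
        rw [ab_pow hA, hAn]; rfl
      · intro h
        apply hne1 q hq hqn
        apply eq_one_of_fix (hA.pow (n / q))
        intro v
        obtain ⟨x₀, rfl⟩ := hof v
        have hcard : ¬ q ∣ Nat.card ({x : P | Abelianization.of x = Abelianization.of x₀} : Set P) := by
          have e : ({x : P | Abelianization.of x = Abelianization.of x₀} : Set P) ≃
              commutator P := {
            toFun := fun x => ⟨x₀⁻¹ * x.1, by
              rw [← Abelianization.ker_of, MonoidHom.mem_ker, map_mul, map_inv, x.2]; simp⟩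
            invFun := fun y => ⟨x₀ * y.1, by
              have h1 : (y : P) ∈ (Abelianization.of : P →* Abelianization P).ker := by
                rw [Abelianization.ker_of]; exact y.2
              show Abelianization.of (x₀ * y.1) = Abelianization.of x₀
              rw [map_mul, MonoidHom.mem_ker.mp h1, mul_one]⟩
            left_inv := fun x => by simp
            right_inv := fun y => by simp }
          rw [Nat.card_congr e]
          obtain ⟨k, hk⟩ := IsPGroup.iff_card.mp (hP.to_subgroup (commutator P))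
          rw [hk]
          intro hdvd
          exact hqp ((Nat.prime_dvd_prime_iff_eq hq hp.out).mp (hq.dvd_of_dvd_pow hdvd))
        obtain ⟨x, hx, hBx⟩ := exists_fix (A ^ (n / q)) hq
          (by rw [← pow_mul, Nat.div_mul_cancel hqn, hAn])
          {x : P | Abelianization.of x = Abelianization.of x₀} (by
            intro x
            show Abelianization.of x = _ ↔ Abelianization.of ((A ^ (n / q)) x) = _
            rw [← ab_pow hA, h]; rfl) hcard
        exact ⟨x, hx, hBx⟩)
  obtain ⟨x, rfl⟩ := hof v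
  refine ⟨x, fun k hk => ?_⟩
  -- the length of the orbit of `x`
  set d := Function.minimalPeriod A x with hd
  have hdn : d ∣ n := by
    apply Function.IsPeriodicPt.minimalPeriod_dvd
    show (A^[n]) x = x
    rw [Equiv.Perm.iterate_eq_pow, hAn]; rfl
  have hdk : d ∣ k := by
    apply Function.IsPeriodicPt.minimalPeriod_dvd
    show (A^[k]) x = x
    rw [Equiv.Perm.iterate_eq_pow, hk]
  have hdeq : d = n := by
    by_contra hne
    have hd0 : 0 < d := Nat.pos_of_dvd_of_pos hdn hn0
    have h1 : n / d ≠ 1 := by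
      intro h
      apply hne
      have := Nat.div_mul_cancel hdn
      rw [h, one_mul] at this
      exact this
    obtain ⟨q, hq, hqd⟩ := Nat.exists_prime_and_dvd h1
    have hqn : q ∣ n := hqd.trans (Nat.div_dvd_of_dvd hdn)
    have hdq : d ∣ n / q := by
      obtain ⟨c, hc⟩ := hqd
      refine ⟨c, ?_⟩
      have h2 := Nat.div_mul_cancel hdn
      rw [hc] at h2
      rw [← h2, mul_assoc, Nat.mul_div_cancel_left _ hq.pos, mul_comm]
    have hfix : (A ^ (n / q)) x = x := by
      have : Function.IsPeriodicPt A (n / q) x :=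
        Function.isPeriodicPt_iff_minimalPeriod_dvd.mpr hdq
      have h3 : (A^[n / q]) x = x := this
      rwa [Equiv.Perm.iterate_eq_pow] at h3
    by_cases hqp : q = p
    · subst hqp
      exact hvW ⟨hqn, x, rfl, hfix⟩
    · apply hv q
      · rw [Finset.mem_erase, Nat.mem_primeFactors]
        exact ⟨hqp, hq, hqn, by omega⟩
      · rw [ab_pow hA, hfix]
  rw [hdeq] at hdk
  exact orderOf_dvd_iff_pow_eq_one.mp hdk

/-- the product over the Sylow subgroups -/
lemma good_of_family {ι : Type*} [Fintype ι] [DecidableEq ι] {G : Type*} [Group G]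
    (H : ι → Type*) [∀ i, Group (H i)] [∀ i, Finite (H i)] (e : G ≃* ∀ i, H i)
    (hker : ∀ α : MulAut G, ∀ i, ∀ g, e g i = 1 → e (α g) i = 1)
    (hgood : ∀ i, ∀ B : Equiv.Perm (H i), ∀ β, HasLin B β → Good B)
    {A : Equiv.Perm G} {α : MulAut G} (hA : HasLin A α) : Good A := by
  -- the automorphisms of the factors
  let b : ∀ i, H i →* H i := fun i =>
    ((Pi.evalMonoidHom H i).comp e.toMonoidHom).comp
      (α.toMonoidHom.comp (e.symm.toMonoidHom.comp (MonoidHom.mulSingle H i)))
  have hb : ∀ i h, b i h = e (α (e.symm (Pi.mulSingle i h))) i := fun i h => rfl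
  have hbe : ∀ i g, e (α g) i = b i (e g i) := by
    intro i g
    rw [hb]
    have h1 : e (g * (e.symm (Pi.mulSingle i (e g i)))⁻¹) i = 1 := by
      rw [map_mul, map_inv, MulEquiv.apply_symm_apply, Pi.mul_apply, Pi.inv_apply,
        Pi.mulSingle_eq_same, mul_inv_cancel]
    have h2 := hker α i _ h1
    rw [map_mul, map_inv, map_mul, map_inv, Pi.mul_apply, Pi.inv_apply] at h2
    exact mul_inv_eq_one.mp h2
  have hinj : ∀ i, Function.Injective (b i) := by
    intro i
    rw [injective_iff_map_eq_one]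
    intro h hh
    rw [hb] at hh
    have h2 := hker α⁻¹ i _ hh
    rw [MulAut.inv_apply_self, MulEquiv.apply_symm_apply, Pi.mulSingle_eq_same] at h2
    exact h2
  let β : ∀ i, MulAut (H i) := fun i =>
    MulEquiv.ofBijective (b i) ⟨hinj i, Finite.surjective_of_injective (hinj i)⟩
  let B : ∀ i, Equiv.Perm (H i) := fun i =>
    (β i).toEquiv.trans (Equiv.mulLeft (e (A 1) i))
  have hBapp : ∀ i h, B i h = e (A 1) i * b i h := fun i h => rfl
  have hB : ∀ i, HasLin (B i) (β i) := by
    intro i x y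
    rw [hBapp, hBapp, map_mul, mul_assoc]; rfl
  have hAB : ∀ g i, e (A g) i = B i (e g i) := by
    intro g i
    have h1 := hA 1 g
    rw [one_mul] at h1
    rw [h1, map_mul, Pi.mul_apply, hBapp, hbe]
  have hABk : ∀ k : ℕ, ∀ g i, e ((A ^ k) g) i = (B i ^ k) (e g i) := by
    intro k
    induction k with
    | zero => intro g i; rfl
    | succ k ih =>
      intro g i
      rw [pow_succ', pow_succ', Equiv.Perm.mul_apply, Equiv.Perm.mul_apply, hAB, ih]
  choose x hx using fun i => hgood i (B i) (β i) (hB i)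
  refine ⟨e.symm x, fun k hk => ?_⟩
  have h1 : ∀ i, B i ^ k = 1 := by
    intro i
    apply hx i k
    have := hABk k (e.symm x) i
    rw [hk, MulEquiv.apply_symm_apply] at this
    exact this.symm
  apply Equiv.ext
  intro g
  apply e.injective
  funext i
  rw [hABk, h1]; rfl

/-- A finite nilpotent group is the product of its Sylow subgroups. -/
lemma exists_equiv (G : Type*) [Group G] [Finite G] [Group.IsNilpotent G] :
    ∃ (P : ∀ p : (Nat.card G).primeFactors, Sylow p G), Nonempty (G ≃* ∀ p, P p) := by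
  let P : ∀ p : (Nat.card G).primeFactors, Sylow p G := default
  refine ⟨P, ⟨MulEquiv.symm ?_⟩⟩
  refine MulEquiv.trans (MulEquiv.symm ?_)
    (Sylow.directProductOfNormal (G := G) (fun {p} hp Q => inferInstance))
  apply @MulEquiv.piCongrRight (Nat.card G).primeFactors (fun p => ∀ P : Sylow p G, P)
    (fun p => P p) _ _
  rintro ⟨p, hp⟩
  have hp' := Fact.mk (Nat.prime_of_mem_primeFactors hp)
  letI := Sylow.unique_of_normal (P ⟨p, hp⟩) inferInstance
  apply MulEquiv.piUnique

/-- affine permutations of finite nilpotent groups -/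
lemma good_of_nilpotent {G : Type*} [Group G] [Finite G] [Group.IsNilpotent G]
    {A : Equiv.Perm G} {α : MulAut G} (hA : HasLin A α) : Good A := by
  classical
  obtain ⟨P, ⟨e⟩⟩ := exists_equiv G
  have hprime : ∀ p : (Nat.card G).primeFactors, (p : ℕ).Prime :=
    fun p => Nat.prime_of_mem_primeFactors p.2
  refine good_of_family (fun p => P p) e ?_ ?_ hA
  · intro γ i g hg
    let N : ℕ := ∏ j ∈ Finset.univ.erase i, Nat.card (P j)
    have h1 : g ^ N = 1 := by
      apply e.injective
      funext j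
      rw [map_pow, map_one, Pi.pow_apply, Pi.one_apply]
      by_cases hj : j = i
      · subst hj
        rw [hg, one_pow]
      · have : Nat.card (P j) ∣ N := Finset.dvd_prod_of_mem _ (Finset.mem_erase.mpr ⟨hj, Finset.mem_univ j⟩)
        obtain ⟨c, hc⟩ := this
        have hh : (e g j) ^ Nat.card (P j) = 1 :=
          orderOf_dvd_iff_pow_eq_one.mp (orderOf_dvd_natCard (e g j))
        rw [hc, pow_mul, hh, one_pow]
    have h2 : (e (γ g) i) ^ N = 1 := by
      have : e (γ g) i ^ N = e (γ (g ^ N)) i := by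
        rw [map_pow, map_pow, Pi.pow_apply]
      rw [this, h1, map_one, map_one, Pi.one_apply]
    have hcop : N.Coprime (Nat.card (P i)) := by
      apply Nat.Coprime.prod_left
      intro j hj
      have : Fact (i : ℕ).Prime := ⟨hprime i⟩
      have : Fact (j : ℕ).Prime := ⟨hprime j⟩
      obtain ⟨a, ha⟩ := IsPGroup.iff_card.mp (P i).isPGroup'
      obtain ⟨b, hb⟩ := IsPGroup.iff_card.mp (P j).isPGroup'
      rw [show Nat.card (P i) = (i : ℕ) ^ a from ha, show Nat.card (P j) = (j : ℕ) ^ b from hb]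
      apply Nat.Coprime.pow
      rw [Nat.coprime_primes (hprime j) (hprime i)]
      intro h
      exact (Finset.mem_erase.mp hj).1 (Subtype.ext h)
    have h3 : orderOf (e (γ g) i) ∣ 1 := by
      rw [← hcop]
      exact Nat.dvd_gcd (orderOf_dvd_of_pow_eq_one h2) (orderOf_dvd_natCard _)
    exact orderOf_eq_one_iff.mp (Nat.dvd_one.mp h3)
  · intro i B β hB
    have : Fact (i : ℕ).Prime := ⟨hprime i⟩
    exact good_of_isPGroup (P i).isPGroup' hB

end nilpotent

/-- If `G` is a finite nilpotent group and `A (x) = t α(x)` is an affine permutation of `G`, then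
some cycle of `A` has length equal to the order of `A`. -/
theorem result {G : Type*} [Group G] [Finite G] [Group.IsNilpotent G] (α : MulAut G) (t : G)
    (A : Equiv.Perm G) (hA : ∀ x, A x = t * α x) :
    ∃ x : G, Function.minimalPeriod A x = orderOf A := by
  have hlin : HasLin A α := by
    intro x y
    rw [hA, hA, map_mul, mul_assoc]
  obtain ⟨x, hx⟩ := good_of_nilpotent hlin
  refine ⟨x, Nat.dvd_antisymm ?_ ?_⟩
  · apply Function.IsPeriodicPt.minimalPeriod_dvd
    show (A^[orderOf A]) x = x
    rw [Equiv.Perm.iterate_eq_pow, pow_orderOf_eq_one]; rfl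
  · apply orderOf_dvd_of_pow_eq_one
    apply hx
    rw [← Equiv.Perm.iterate_eq_pow]
    exact Function.isPeriodicPt_minimalPeriod A x

end Pool.Agent.Results.MP_27f3b7_al.LargestCycle
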